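import Pool.Agent.TH158.FM.Stm

set_option autoImplicit false

/-!
# Hilbert's inequality for the integers, constant `π` (job 4552 of helper158, by helper574)
-/

namespace Pool.Agent.TH158.FM.HIL0

open Complex MeasureTheory Finset

noncomputable section

/-- `2 π i k` -/
def cc (k : ℤ) : ℂ := (k : ℂ) * (2 * Real.pi * I)

lemma exp_cc (k : ℤ) : Complex.exp (cc k) = 1 := Complex.exp_int_mul_two_pi_mul_I k

lemma cc_ne {k : ℤ} (hk : k ≠ 0) : cc k ≠ 0 := by
  unfold cc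
  have h1 : (k : ℂ) ≠ 0 := by exact_mod_cast hk
  have h2 : (Real.pi : ℂ) ≠ 0 := by exact_mod_cast Real.pi_ne_zero
  simp [h1, h2]

lemma int_exp (k : ℤ) : ∫ y in (0 : ℝ)..1, Complex.exp (cc k * y) = if k = 0 then 1 else 0 := by
  split_ifs with h
  · subst h
    simp [cc]
  · rw [integral_exp_mul_complex (cc_ne h)]
    simp [exp_cc]

lemma int_lin (k : ℤ) : ∫ y in (0 : ℝ)..1, ((1 / 2 - y : ℝ) : ℂ) * Complex.exp (cc k * y) =
    if k = 0 then 0 else -1 / cc k := by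
  split_ifs with h
  · subst h
    have h1 : ∀ y : ℝ, ((1 / 2 - y : ℝ) : ℂ) * Complex.exp (cc 0 * y) = ((1 / 2 - y : ℝ) : ℂ) := by
      intro y
      simp [cc]
    simp only [h1]
    rw [intervalIntegral.integral_ofReal]
    have h2 : ∫ y in (0 : ℝ)..1, (1 / 2 - y) = 0 := by
      rw [intervalIntegral.integral_sub (by simp) (by simp)]
      simp
    rw [h2]
    simp
  · have hc := cc_ne h
    have hder : ∀ y ∈ Set.uIcc (0 : ℝ) 1, HasDerivAt (fun y : ℝ => ((1 / 2 - y : ℝ) : ℂ) *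
        Complex.exp (cc k * y) / cc k + Complex.exp (cc k * y) / cc k ^ 2)
        (((1 / 2 - y : ℝ) : ℂ) * Complex.exp (cc k * y)) y := by
      intro y _
      have h1 : HasDerivAt (fun y : ℝ => ((1 / 2 - y : ℝ) : ℂ)) (-1) y := by
        have := ((hasDerivAt_id y).const_sub (1 / 2)).ofReal_comp
        simpa using this
      have h2 : HasDerivAt (fun y : ℝ => Complex.exp (cc k * y)) (cc k * Complex.exp (cc k * y)) y := by
        have h3 : HasDerivAt (fun y : ℝ => cc k * (y : ℂ)) (cc k) y := by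
          have := (Complex.ofRealCLM.hasDerivAt (x := y)).const_mul (cc k)
          simpa using this
        have := h3.cexp
        rwa [mul_comm] at this
      have h4 := ((h1.mul h2).div_const (cc k)).add (h2.div_const (cc k ^ 2))
      refine h4.congr_deriv ?_
      field_simp
      ring
    rw [intervalIntegral.integral_eq_sub_of_hasDerivAt hder
      ((by fun_prop : Continuous fun y : ℝ => ((1 / 2 - y : ℝ) : ℂ) *
        Complex.exp (cc k * y)).intervalIntegrable _ _)]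
    simp only [ofReal_one, mul_one, exp_cc, ofReal_zero, mul_zero, Complex.exp_zero]
    push_cast
    field_simp
    ring

/-- the trigonometric polynomial -/
def AA (s : Finset ℕ) (a : ℕ → ℂ) (y : ℝ) : ℂ := ∑ m ∈ s, a m * Complex.exp (cc m * y)

lemma AA_cont (s : Finset ℕ) (a : ℕ → ℂ) : Continuous (AA s a) := by
  unfold AA
  fun_prop

lemma prod_eq (s : Finset ℕ) (a b : ℕ → ℂ) (y : ℝ) :
    AA s a y * (starRingEnd ℂ) (AA s b y) = ∑ m ∈ s, ∑ n ∈ s,
      a m * (starRingEnd ℂ) (b n) * Complex.exp (cc ((m : ℤ) - n) * y) := by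
  unfold AA
  rw [map_sum, sum_mul_sum]
  refine sum_congr rfl fun m _ => sum_congr rfl fun n _ => ?_
  rw [map_mul, ← Complex.exp_conj, map_mul, Complex.conj_ofReal]
  have h1 : (starRingEnd ℂ) (cc (n : ℤ)) = -cc (n : ℤ) := by
    unfold cc
    rw [map_mul, map_mul, map_mul, Complex.conj_I, Complex.conj_ofReal, map_ofNat, map_intCast]
    ring
  rw [h1]
  have h2 : Complex.exp (cc ((m : ℤ) - n) * y) = Complex.exp (cc m * y) *
      Complex.exp (-cc (n : ℤ) * y) := by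
    rw [← Complex.exp_add]
    congr 1
    unfold cc
    push_cast
    ring
  rw [h2]
  ring

lemma sum_int (s : Finset ℕ) (a b : ℕ → ℂ) (g : ℝ → ℂ) (hg : Continuous g) :
    ∫ y in (0 : ℝ)..1, g y * (AA s a y * (starRingEnd ℂ) (AA s b y)) = ∑ m ∈ s, ∑ n ∈ s,
      a m * (starRingEnd ℂ) (b n) *
        ∫ y in (0 : ℝ)..1, g y * Complex.exp (cc ((m : ℤ) - n) * y) := by
  have h1 : ∀ y : ℝ, g y * (AA s a y * (starRingEnd ℂ) (AA s b y)) = ∑ m ∈ s, ∑ n ∈ s,
      a m * (starRingEnd ℂ) (b n) * (g y * Complex.exp (cc ((m : ℤ) - n) * y)) := by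
    intro y
    rw [prod_eq, mul_sum]
    refine sum_congr rfl fun m _ => ?_
    rw [mul_sum]
    exact sum_congr rfl fun n _ => by ring
  simp only [h1]
  rw [intervalIntegral.integral_finsetSum]
  · refine sum_congr rfl fun m _ => ?_
    rw [intervalIntegral.integral_finsetSum]
    · exact sum_congr rfl fun n _ => intervalIntegral.integral_const_mul _ _
    · intro n _
      exact Continuous.intervalIntegrable (by fun_prop) _ _
  · intro m _
    exact Continuous.intervalIntegrable (by fun_prop) _ _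

lemma parseval (s : Finset ℕ) (a : ℕ → ℂ) :
    ∫ y in (0 : ℝ)..1, ‖AA s a y‖ ^ 2 = ∑ m ∈ s, ‖a m‖ ^ 2 := by
  have h1 := sum_int s a a (fun _ => 1) continuous_const
  have h2 : ∀ y : ℝ, (1 : ℂ) * (AA s a y * (starRingEnd ℂ) (AA s a y)) =
      ((‖AA s a y‖ ^ 2 : ℝ) : ℂ) := by
    intro y
    rw [one_mul, Complex.mul_conj, Complex.normSq_eq_norm_sq]
  simp only [h2] at h1
  rw [intervalIntegral.integral_ofReal] at h1
  have h3 : ∑ m ∈ s, ∑ n ∈ s, a m * (starRingEnd ℂ) (a n) *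
      ∫ y in (0 : ℝ)..1, (1 : ℂ) * Complex.exp (cc ((m : ℤ) - n) * y) =
      ((∑ m ∈ s, ‖a m‖ ^ 2 : ℝ) : ℂ) := by
    push_cast
    refine sum_congr rfl fun m hm => ?_
    rw [sum_eq_single m]
    · simp only [one_mul]
      rw [int_exp, if_pos (sub_self _), mul_one, Complex.mul_conj, Complex.normSq_eq_norm_sq]
      push_cast
      rfl
    · intro n _ hne
      simp only [one_mul]
      rw [int_exp, if_neg, mul_zero]
      rw [sub_eq_zero]
      exact_mod_cast hne.symm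
    · intro h
      exact absurd hm h
  rw [h3] at h1
  exact_mod_cast h1

lemma main_id (s : Finset ℕ) (a b : ℕ → ℂ) :
    ∑ m ∈ s, ∑ n ∈ s.erase m, a m * (starRingEnd ℂ) (b n) / ((m : ℂ) - (n : ℂ)) =
      -(2 * Real.pi * I) * ∫ y in (0 : ℝ)..1, ((1 / 2 - y : ℝ) : ℂ) *
        (AA s a y * (starRingEnd ℂ) (AA s b y)) := by
  rw [sum_int s a b (fun y : ℝ => ((1 / 2 - y : ℝ) : ℂ)) (by fun_prop), mul_sum]
  refine sum_congr rfl fun m hm => ?_
  rw [mul_sum, ← add_sum_erase s _ hm, int_lin, if_pos (sub_self _), mul_zero, mul_zero, zero_add]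
  refine sum_congr rfl fun n hn => ?_
  have hne : n ≠ m := (mem_erase.1 hn).1
  have h1 : ((m : ℤ) - n) ≠ 0 := by
    rw [sub_ne_zero]
    exact_mod_cast hne.symm
  rw [int_lin, if_neg h1]
  have h2 : (m : ℂ) - n ≠ 0 := by
    rw [sub_ne_zero]
    exact_mod_cast hne.symm
  have h3 : (Real.pi : ℂ) ≠ 0 := by exact_mod_cast Real.pi_ne_zero
  unfold cc
  push_cast
  have h4 := I_ne_zero
  field_simp

lemma bound (s : Finset ℕ) (a b : ℕ → ℂ) (l : ℝ) (hl : 0 < l) :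
    ‖∑ m ∈ s, ∑ n ∈ s.erase m, a m * (starRingEnd ℂ) (b n) / ((m : ℂ) - (n : ℂ))‖ ≤
      Real.pi / 2 * (l * (∑ m ∈ s, ‖a m‖ ^ 2) + l⁻¹ * ∑ m ∈ s, ‖b m‖ ^ 2) := by
  rw [main_id, norm_mul, norm_neg, norm_mul, norm_mul, Complex.norm_I, mul_one,
    Complex.norm_real, Real.norm_eq_abs, abs_of_pos Real.pi_pos]
  have hA := AA_cont s a
  have hB := AA_cont s b
  have h1 : ‖∫ y in (0 : ℝ)..1, ((1 / 2 - y : ℝ) : ℂ) *
      (AA s a y * (starRingEnd ℂ) (AA s b y))‖ ≤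
      ∫ y in (0 : ℝ)..1, (1 / 4 * (l * ‖AA s a y‖ ^ 2 + l⁻¹ * ‖AA s b y‖ ^ 2)) := by
    refine intervalIntegral.norm_integral_le_of_norm_le zero_le_one ?_
      (Continuous.intervalIntegrable (by fun_prop) _ _)
    refine Filter.Eventually.of_forall fun y hy => ?_
    rw [norm_mul, norm_mul, Complex.norm_real, Real.norm_eq_abs, RCLike.norm_conj]
    have h2 : |1 / 2 - y| ≤ 1 / 2 := by
      rw [abs_le]
      constructor <;> linarith [hy.1, hy.2]
    have h3 : ‖AA s a y‖ * ‖AA s b y‖ ≤ 1 / 2 * (l * ‖AA s a y‖ ^ 2 + l⁻¹ * ‖AA s b y‖ ^ 2) := by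
      have hr : 0 < Real.sqrt l := Real.sqrt_pos.2 hl
      have h4 := sq_nonneg (Real.sqrt l * ‖AA s a y‖ - (Real.sqrt l)⁻¹ * ‖AA s b y‖)
      have h5 : Real.sqrt l ^ 2 = l := Real.sq_sqrt hl.le
      have h6 : (Real.sqrt l * ‖AA s a y‖ - (Real.sqrt l)⁻¹ * ‖AA s b y‖) ^ 2 =
          Real.sqrt l ^ 2 * ‖AA s a y‖ ^ 2 + (Real.sqrt l ^ 2)⁻¹ * ‖AA s b y‖ ^ 2 -
            2 * (Real.sqrt l * (Real.sqrt l)⁻¹) * (‖AA s a y‖ * ‖AA s b y‖) := by
        ring
      rw [h6, h5, mul_inv_cancel₀ hr.ne'] at h4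
      linarith
    calc |1 / 2 - y| * (‖AA s a y‖ * ‖AA s b y‖) ≤
          1 / 2 * (1 / 2 * (l * ‖AA s a y‖ ^ 2 + l⁻¹ * ‖AA s b y‖ ^ 2)) :=
          mul_le_mul h2 h3 (by positivity) (by norm_num)
      _ = _ := by ring
  have h2 : ∫ y in (0 : ℝ)..1, (1 / 4 * (l * ‖AA s a y‖ ^ 2 + l⁻¹ * ‖AA s b y‖ ^ 2)) =
      1 / 4 * (l * (∑ m ∈ s, ‖a m‖ ^ 2) + l⁻¹ * ∑ m ∈ s, ‖b m‖ ^ 2) := by
    rw [intervalIntegral.integral_const_mul, intervalIntegral.integral_add
      (Continuous.intervalIntegrable (by fun_prop) _ _)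
      (Continuous.intervalIntegrable (by fun_prop) _ _),
      intervalIntegral.integral_const_mul, intervalIntegral.integral_const_mul, parseval, parseval]
  rw [h2] at h1
  have hpi := Real.pi_pos
  have h3 : ‖(2 : ℂ)‖ = 2 := by norm_num
  rw [h3]
  calc 2 * Real.pi * ‖∫ y in (0 : ℝ)..1, ((1 / 2 - y : ℝ) : ℂ) *
      (AA s a y * (starRingEnd ℂ) (AA s b y))‖ ≤ 2 * Real.pi *
        (1 / 4 * (l * (∑ m ∈ s, ‖a m‖ ^ 2) + l⁻¹ * ∑ m ∈ s, ‖b m‖ ^ 2)) :=
        mul_le_mul_of_nonneg_left h1 (by positivity)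
    _ = _ := by ring

lemma final (s : Finset ℕ) (a b : ℕ → ℂ) :
    ‖∑ m ∈ s, ∑ n ∈ s.erase m, a m * (starRingEnd ℂ) (b n) / ((m : ℂ) - (n : ℂ))‖ ≤
      Real.pi * (Real.sqrt (∑ m ∈ s, ‖a m‖ ^ 2) * Real.sqrt (∑ m ∈ s, ‖b m‖ ^ 2)) := by
  have hA0 : 0 ≤ ∑ m ∈ s, ‖a m‖ ^ 2 := sum_nonneg fun _ _ => by positivity
  have hB0 : 0 ≤ ∑ m ∈ s, ‖b m‖ ^ 2 := sum_nonneg fun _ _ => by positivity
  have hb := bound s a b
  rcases hA0.eq_or_lt with hA | hA
  · have h0 : ∀ m ∈ s, a m = 0 := by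
      intro m hm
      have := (sum_eq_zero_iff_of_nonneg (fun _ _ => by positivity)).1 hA.symm m hm
      simpa using this
    have h1 : ∑ m ∈ s, ∑ n ∈ s.erase m, a m * (starRingEnd ℂ) (b n) / ((m : ℂ) - (n : ℂ)) = 0 := by
      refine sum_eq_zero fun m hm => sum_eq_zero fun n _ => ?_
      rw [h0 m hm]
      simp
    rw [h1, norm_zero]
    positivity
  rcases hB0.eq_or_lt with hB | hB
  · have h0 : ∀ m ∈ s, b m = 0 := by
      intro m hm
      have := (sum_eq_zero_iff_of_nonneg (fun _ _ => by positivity)).1 hB.symm m hm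
      simpa using this
    have h1 : ∑ m ∈ s, ∑ n ∈ s.erase m, a m * (starRingEnd ℂ) (b n) / ((m : ℂ) - (n : ℂ)) = 0 := by
      refine sum_eq_zero fun m hm => sum_eq_zero fun n hn => ?_
      rw [h0 n (mem_of_mem_erase hn)]
      simp
    rw [h1, norm_zero]
    positivity
  generalize ∑ m ∈ s, ‖a m‖ ^ 2 = A at *
  generalize ∑ m ∈ s, ‖b m‖ ^ 2 = B at *
  have hsA : 0 < Real.sqrt A := Real.sqrt_pos.2 hA
  have hsB : 0 < Real.sqrt B := Real.sqrt_pos.2 hB
  have h1 := hb (Real.sqrt B / Real.sqrt A) (by positivity)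
  have h2 : Real.sqrt B / Real.sqrt A * A = Real.sqrt A * Real.sqrt B := by
    nth_rewrite 2 [← Real.mul_self_sqrt hA.le]
    field_simp
  have h3 : (Real.sqrt B / Real.sqrt A)⁻¹ * B = Real.sqrt A * Real.sqrt B := by
    nth_rewrite 2 [← Real.mul_self_sqrt hB.le]
    field_simp
  rw [h2, h3] at h1
  refine h1.trans (le_of_eq ?_)
  ring

end

end Pool.Agent.TH158.FM.HIL0

namespace Pool.Agent.TH158.FM

theorem hil0_all : S_HIL0 := by
  intro M a b
  exact HIL0.final (Finset.Icc 1 M) a b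

end Pool.Agent.TH158.FM
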